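import Pool.Agent.helper1.FI.SpecQ2

set_option autoImplicit false

namespace Pool.Agent.FI

open Pool.Agent.helper58.DC Pool.Agent.DI Pool.Agent.GR Pool.Agent.OB

theorem QNU_mem {G : Type} [Group G] {L : Subgroup G} {u y : G} : y ∈ Cz L u ↔ y ∈ L ∧ u * y = y * u := by
  unfold Cz
  rw [Subgroup.mem_inf, Subgroup.mem_centralizer_iff]
  constructor
  · rintro ⟨h1, h2⟩
    exact ⟨h1, h2 u rfl⟩
  · rintro ⟨h1, h2⟩
    refine ⟨h1, fun z hz => ?_⟩
    rw [Set.mem_singleton_iff] at hz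
    rw [hz]
    exact h2

theorem QNU_pow {G : Type} [Group G] [Finite G] {p : ℕ} (hp : p.Prime) (L : Subgroup G) (u : G) (hu : PEl p u) (s : ℕ)
    (hs : ¬ p ∣ s) : Cz L (u ^ s) = Cz L u := by
  obtain ⟨k, hk⟩ := hu
  have hord : orderOf u ∣ p ^ k := orderOf_dvd_of_pow_eq_one hk
  have hcop : s.Coprime (orderOf u) := by
    refine Nat.Coprime.coprime_dvd_right hord ?_
    refine Nat.Coprime.pow_right k ?_
    exact ((Nat.Prime.coprime_iff_not_dvd hp).2 hs).symm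
  obtain ⟨m, hm⟩ := exists_pow_eq_self_of_coprime hcop
  ext y
  rw [QNU_mem, QNU_mem]
  constructor
  · rintro ⟨h1, h2⟩
    refine ⟨h1, ?_⟩
    have h3 : Commute (u ^ s) y := h2
    have h4 : Commute ((u ^ s) ^ m) y := h3.pow_left m
    rw [hm] at h4
    exact h4
  · rintro ⟨h1, h2⟩
    have h3 : Commute u y := h2
    exact ⟨h1, h3.pow_left s⟩

/-- Row QNU. -/
theorem QNU (hRR1 : RR1_stmt) (hQN1 : QN1_stmt) (hQN2 : QN2_stmt) (hQN3 : QN3_stmt) : QNU_stmt := by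
  intro p M hs G _ _ D x θ χ hLo P hP hGU i hQI
  classical
  have hcom : D ≤ cz D := by
    intro d hd
    rw [Subgroup.mem_centralizer_iff]
    intro c hc
    exact hLo.rt.com c hc d hd
  have hCL : cz D ≤ cz P := Subgroup.centralizer_le hP
  have hDL : D ≤ cz P := hcom.trans hCL
  have hθ1 : θ 1 ≠ 0 := IrrOn_ne hLo.rt.th
  have hpel : ∀ u ∈ D, PEl p u := by
    intro u hu
    obtain ⟨k, hk⟩ := hLo.rt.dfa.pgrp ⟨u, hu⟩
    refine ⟨k, ?_⟩
    have := congrArg (Subtype.val) hk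
    simpa using this
  have hCK : ∀ u ∈ D, cz D ≤ Cz (cz P) u := by
    intro u hu y hy
    exact QNU_mem.2 ⟨hCL hy, (Subgroup.mem_centralizer_iff.1 hy) u hu⟩
  -- choice of `N` for the subgroups
  let S : Subgroup G → Prop := fun K => ∃ u ∈ D, ¬ Cen (cz P) u ∧ K = Cz (cz P) u
  have ex : ∀ K : Subgroup G, S K → ∃ N : ℕ, ¬ p ∣ N ∧ ∃ j : G → ℂ, Idm M K j ∧ Inv (cz D) j ∧
      cv j (eBl M K θ) = j ∧ (∀ y ∈ K, InM M (i y - j y)) ∧ ∀ ψ ∈ Bl M K θ, ev ψ j 1 = N * θ 1 := by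
    rintro K ⟨u, hu, hc, rfl⟩
    obtain ⟨j, hj1, hj2, hj3, hj4, hj5⟩ := hQI.loc (Cz (cz P) u) ⟨u, hu, rfl⟩
    obtain ⟨N, hN1, hN2⟩ := hQN2 p M hs G D x θ χ hLo P hP u hu (hGU u hu hc) j hj1 hj2 hj3 (by
      intro y hy
      have h1 := hQI.cen y hy
      have h2 := hj5 y (hCK u hu hy)
      have e : j y - eBl M (cz D) θ y = (i y - eBl M (cz D) θ y) - (i y - j y) := by ring
      rw [e]
      exact h1.sub hs h2)
    exact ⟨N, hN1, j, hj1, hj2, hj4, hj5, hN2⟩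
  let nK : Subgroup G → ℤ := fun K => if h : S K then ((Classical.choose (ex K h) : ℕ) : ℤ) else 1
  have hnK : ∀ K, S K → ∃ N : ℕ, nK K = N ∧ ¬ p ∣ N ∧ ∃ j : G → ℂ, Idm M K j ∧ Inv (cz D) j ∧
      cv j (eBl M K θ) = j ∧ (∀ y ∈ K, InM M (i y - j y)) ∧ ∀ ψ ∈ Bl M K θ, ev ψ j 1 = N * θ 1 := by
    intro K hK
    refine ⟨Classical.choose (ex K hK), ?_, Classical.choose_spec (ex K hK)⟩
    change (if h : S K then ((Classical.choose (ex K h) : ℕ) : ℤ) else 1) = _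
    rw [dif_pos hK]
  have hS : ∀ u ∈ D, ¬ Cen (cz P) u → S (Cz (cz P) u) := fun u hu hc => ⟨u, hu, hc, rfl⟩
  -- the formula
  have formula : ∀ u ∈ D, ¬ Cen (cz P) u → ∀ φ ∈ IrrOn (cz P),
      ev φ i u = ((nK (Cz (cz P) u) : ℂ) * θ 1) * dd M (Cz (cz P) u) θ φ u := by
    intro u hu hc φ hφ
    obtain ⟨N, hN0, hN1, j, hj1, hj2, hj4, hj5, hj6⟩ := hnK _ (hS u hu hc)
    have huL : u ∈ cz P := hDL hu
    have hjL : Idm M (cz P) j := by
      refine ⟨fun y hy => hj1.sup y fun h => hy (QNU_mem.1 h).1, hj1.int, hj1.idem⟩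
    have h1 := hRR1 p M hs G (cz P) u huL 1 (cz P).one_mem (hpel u hu)
      (by
        unfold PReg
        rw [orderOf_one]
        exact hs.pr.one_lt.not_ge ∘ fun h => Nat.le_of_dvd Nat.one_pos h) (Commute.one_right u) i j hQI.idm hjL
      (by
        intro y
        rw [mul_one]
        exact hQI.inv u (Subgroup.mem_inf.2 ⟨cz_le_TT (hcom hu), huL⟩) y)
      (by
        intro y
        rw [mul_one]
        exact hj2 u (hcom hu) y) hj5 φ hφ
    rw [mul_one] at h1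
    rw [h1, hN0]
    have h2 := hQN1 G M (cz P) θ u huL j hj1.sup hj4 ((N : ℂ) * θ 1) hj6 φ hφ
    rw [h2]
    push_cast
    ring
  refine ⟨fun u => nK (Cz (cz P) u), fun u hu hc => ⟨?_, ?_, ?_, ?_⟩⟩
  · obtain ⟨N, hN0, hN1, -⟩ := hnK _ (hS u hu hc)
    change ¬ (p : ℤ) ∣ nK (Cz (cz P) u)
    rw [hN0]
    exact_mod_cast hN1
  · intro φ hφ
    rw [formula u hu hc φ hφ]
    field_simp
  · intro t ht
    obtain ⟨ht1, ht2⟩ := Subgroup.mem_inf.1 ht
    have htn : t ∈ nz D := (mem_TT.1 ht1).1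
    have hu' : t * u * t⁻¹ ∈ D := (Subgroup.mem_normalizer_iff.1 htn u).1 hu
    have hc' : ¬ Cen (cz P) (t * u * t⁻¹) := by
      intro h
      apply hc
      have h1 := h t ht2
      have h2 : t * u * t⁻¹ = u := by
        have h3 : t * (t * u * t⁻¹) = t * u := by
          rw [h1]
          group
        exact mul_left_cancel h3
      rwa [h2] at h
    have h := hQN3 p M hs G D x θ χ hLo P hP i hQI.inv u hu (hGU u hu hc) t ht _ _ (formula u hu hc)
      (formula _ hu' hc')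
    have h2 := mul_right_cancel₀ hθ1 h
    change nK (Cz (cz P) (t * u * t⁻¹)) = nK (Cz (cz P) u)
    exact_mod_cast h2.symm
  · intro s hs'
    change nK (Cz (cz P) (u ^ s)) = nK (Cz (cz P) u)
    rw [QNU_pow hs.pr (cz P) u (hpel u hu) s hs']

end Pool.Agent.FI
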